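import Mathlib

set_option autoImplicit false
set_option linter.unusedVariables false

open MeasureTheory Set Real intervalIntegral Filter Topology
open scoped Interval

namespace Pool.Agent.H50.EH

/-- The kernel of Step 1. -/
noncomputable def kap (r ψ t : ℝ) : ℝ := r * sin ψ / (r ^ 2 + t ^ 2 + 2 * r * t * cos ψ)

/-- The angle `arg (t + r e^{i φ})`. -/
noncomputable def ang (r φ t : ℝ) : ℝ := (Complex.log ((t : ℂ) + r * Complex.exp (φ * Complex.I))).im

lemma den_eq (r t φ : ℝ) :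
    r ^ 2 + t ^ 2 + 2 * r * t * cos φ = (t + r * cos φ) ^ 2 + (r * sin φ) ^ 2 := by
  have := Real.sin_sq_add_cos_sq φ
  linear_combination (-(r^2)) * this

lemma den_eq' (r t φ : ℝ) :
    r ^ 2 + t ^ 2 + 2 * r * t * cos φ = (r + t * cos φ) ^ 2 + (t * sin φ) ^ 2 := by
  have := Real.sin_sq_add_cos_sq φ
  linear_combination (-(t^2)) * this

lemma den_pos {r ψ : ℝ} (hr : 0 < r) (h0 : 0 < ψ) (h1 : ψ < π) (t : ℝ) :
    0 < r ^ 2 + t ^ 2 + 2 * r * t * cos ψ := by
  have hs : 0 < sin ψ := sin_pos_of_pos_of_lt_pi h0 h1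
  rw [den_eq]
  positivity

lemma den_ge {r ψ : ℝ} (hr : 0 < r) (h0 : 0 < ψ) (h1 : ψ < π) {t φ : ℝ} (ht : 0 ≤ t)
    (hφ : |φ| ≤ ψ) : (r * sin ψ) ^ 2 ≤ r ^ 2 + t ^ 2 + 2 * r * t * cos φ := by
  have hc : cos ψ ≤ cos φ := by
    rw [← Real.cos_abs φ]
    exact Real.cos_le_cos_of_nonneg_of_le_pi (abs_nonneg _) h1.le hφ
  have h2 : 0 ≤ r * t := by positivity
  have := den_eq r t ψ
  nlinarith [sq_nonneg (t + r * cos ψ), mul_le_mul_of_nonneg_left hc h2]

lemma kap_nonneg {r ψ : ℝ} (hr : 0 < r) (h0 : 0 < ψ) (h1 : ψ < π) (t : ℝ) : 0 ≤ kap r ψ t := by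
  have hs : 0 < sin ψ := sin_pos_of_pos_of_lt_pi h0 h1
  have := den_pos hr h0 h1 t
  unfold kap; positivity

lemma kap_pos {r ψ : ℝ} (hr : 0 < r) (h0 : 0 < ψ) (h1 : ψ < π) (t : ℝ) : 0 < kap r ψ t := by
  have hs : 0 < sin ψ := sin_pos_of_pos_of_lt_pi h0 h1
  have := den_pos hr h0 h1 t
  unfold kap; positivity

lemma continuous_kap {r ψ : ℝ} (hr : 0 < r) (h0 : 0 < ψ) (h1 : ψ < π) : Continuous (kap r ψ) := by
  unfold kap
  refine Continuous.div (by fun_prop) (by fun_prop) (fun t => (den_pos hr h0 h1 t).ne')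

lemma kap_le {r ψ : ℝ} (hr : 0 < r) (h0 : 0 < ψ) (h1 : ψ < π) (t : ℝ) :
    kap r ψ t ≤ 1 / (r * sin ψ) := by
  have hs : 0 < sin ψ := sin_pos_of_pos_of_lt_pi h0 h1
  have hd := den_pos hr h0 h1 t
  unfold kap
  rw [div_le_div_iff₀ hd (by positivity)]
  have := den_eq r t ψ
  nlinarith [sq_nonneg (t + r * cos ψ)]

lemma kap_le' {r ψ : ℝ} (hr : 0 < r) (h0 : 0 < ψ) (h1 : ψ < π) {t : ℝ} (ht : 0 < t) :
    kap r ψ t ≤ r / sin ψ * (1 / t ^ 2) := by
  have hs : 0 < sin ψ := sin_pos_of_pos_of_lt_pi h0 h1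
  have hd := den_pos hr h0 h1 t
  unfold kap
  rw [div_mul_div_comm, mul_one, div_le_div_iff₀ hd (by positivity)]
  have := den_eq' r t ψ
  nlinarith [mul_nonneg hr.le (sq_nonneg (r + t * cos ψ))]

/-! ### the angle -/

lemma arg_point (r φ t : ℝ) :
    ((t : ℂ) + r * Complex.exp (φ * Complex.I)) = ⟨t + r * cos φ, r * sin φ⟩ := by
  apply Complex.ext
  · simp [Complex.exp_re, Complex.exp_im]
  · simp [Complex.exp_re, Complex.exp_im]

lemma normSq_point (r φ t : ℝ) :
    Complex.normSq ((t : ℂ) + r * Complex.exp (φ * Complex.I)) =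
      r ^ 2 + t ^ 2 + 2 * r * t * cos φ := by
  rw [arg_point, Complex.normSq_mk, den_eq]; ring

lemma hasDerivAt_ang_t {r ψ : ℝ} (hr : 0 < r) (h0 : 0 < ψ) (h1 : ψ < π) (t : ℝ) :
    HasDerivAt (fun t => ang r ψ t) (-kap r ψ t) t := by
  have hs : 0 < sin ψ := sin_pos_of_pos_of_lt_pi h0 h1
  have hf : HasDerivAt (fun t : ℝ => ((t : ℂ) + r * Complex.exp (ψ * Complex.I))) 1 t := by
    have := (hasDerivAt_id t).ofReal_comp
    simpa using this.add_const (r * Complex.exp (ψ * Complex.I))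
  have hsl : ((t : ℂ) + r * Complex.exp (ψ * Complex.I)) ∈ Complex.slitPlane := by
    right
    rw [arg_point]
    positivity
  have hl := hf.clog_real hsl
  have := (Complex.imCLM.hasFDerivAt.comp_hasDerivAt t hl)
  refine HasDerivAt.congr_deriv this ?_
  rw [Complex.imCLM_apply, one_div, Complex.inv_im, normSq_point]
  rw [arg_point]
  unfold kap
  simp [neg_div]

lemma hasDerivAt_ang_φ {r φ t : ℝ} (hr : 0 < r) (ht : 0 ≤ t) (hφ : |φ| < π) :
    HasDerivAt (fun φ => ang r φ t)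
      (1 - t * ((t + r * cos φ) / (r ^ 2 + t ^ 2 + 2 * r * t * cos φ))) φ := by
  have hf : HasDerivAt (fun φ : ℝ => ((t : ℂ) + r * Complex.exp (φ * Complex.I)))
      (r * (Complex.exp (φ * Complex.I) * Complex.I)) φ := by
    have h1 : HasDerivAt (fun φ : ℝ => ((φ : ℂ) * Complex.I)) Complex.I φ := by
      simpa using ((hasDerivAt_id φ).ofReal_comp).mul_const Complex.I
    exact (h1.cexp.const_mul (r : ℂ)).const_add _
  have hsl : ((t : ℂ) + r * Complex.exp (φ * Complex.I)) ∈ Complex.slitPlane := by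
    rw [arg_point]
    by_cases hs : sin φ = 0
    · left
      have : φ = 0 := by
        rw [abs_lt] at hφ
        exact (Real.sin_eq_zero_iff_of_lt_of_lt hφ.1 hφ.2).1 hs
      subst this
      simp; linarith
    · right
      simp only
      exact mul_ne_zero hr.ne' hs
  have hQ : 0 < r ^ 2 + t ^ 2 + 2 * r * t * cos φ := by
    rw [← normSq_point]
    exact Complex.normSq_pos.2 (Complex.slitPlane_ne_zero hsl)
  have hl := hf.clog_real hsl
  have := (Complex.imCLM.hasFDerivAt.comp_hasDerivAt φ hl)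
  refine HasDerivAt.congr_deriv this ?_
  rw [Complex.imCLM_apply, Complex.div_im, normSq_point]
  have e1 : (r * (Complex.exp (φ * Complex.I) * Complex.I) : ℂ) = ⟨-(r * sin φ), r * cos φ⟩ := by
    apply Complex.ext
    · simp [Complex.exp_re, Complex.exp_im]
    · simp [Complex.exp_re, Complex.exp_im]
  rw [e1, arg_point]
  simp only
  have hs2 := Real.sin_sq_add_cos_sq φ
  rw [← sub_div, eq_sub_iff_add_eq, ← mul_div_assoc, ← add_div, div_eq_one_iff_eq hQ.ne']
  linear_combination (r^2) * hs2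

lemma ang_zero {r ψ : ℝ} (hr : 0 < r) (h0 : 0 < ψ) (h1 : ψ < π) : ang r ψ 0 = ψ := by
  unfold ang
  rw [Complex.log_im]
  have e : ((0 : ℝ) : ℂ) + r * Complex.exp (ψ * Complex.I) =
      r * (Complex.cos ψ + Complex.sin ψ * Complex.I) := by
    rw [Complex.exp_mul_I]; simp
  rw [e]
  exact Complex.arg_mul_cos_add_sin_mul_I hr ⟨by linarith [Real.pi_pos], h1.le⟩

lemma ang_neg {r ψ : ℝ} (hr : 0 < r) (h0 : 0 < ψ) (h1 : ψ < π) (t : ℝ) :
    ang r (-ψ) t = - ang r ψ t := by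
  have hs : 0 < sin ψ := sin_pos_of_pos_of_lt_pi h0 h1
  unfold ang
  have e : ((t : ℂ) + r * Complex.exp ((-ψ : ℝ) * Complex.I)) =
      (starRingEnd ℂ) ((t : ℂ) + r * Complex.exp (ψ * Complex.I)) := by
    rw [arg_point, arg_point]
    apply Complex.ext <;> simp
  rw [e, Complex.log_im, Complex.log_im, Complex.arg_conj, if_neg]
  intro h
  rw [Complex.arg_eq_pi_iff] at h
  have := h.2
  rw [arg_point] at this
  simp only at this
  have : 0 < r * sin ψ := by positivity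
  linarith

lemma tendsto_ang {r ψ : ℝ} (hr : 0 < r) (h0 : 0 < ψ) (h1 : ψ < π) :
    Tendsto (fun t => ang r ψ t) atTop (𝓝 0) := by
  have h : Tendsto (fun t : ℝ => (Complex.log (1 + ((t⁻¹ : ℝ) : ℂ) *
      (r * Complex.exp (ψ * Complex.I)))).im) atTop (𝓝 0) := by
    have h2 : Tendsto (fun t : ℝ => (1 + ((t⁻¹ : ℝ) : ℂ) * (r * Complex.exp (ψ * Complex.I)))) atTop
        (𝓝 (1 + ((0 : ℝ) : ℂ) * (r * Complex.exp (ψ * Complex.I)))) := by
      refine Tendsto.const_add _ (Tendsto.mul_const _ ?_)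
      exact (Complex.continuous_ofReal.tendsto 0).comp tendsto_inv_atTop_zero
    rw [Complex.ofReal_zero, zero_mul, add_zero] at h2
    have h3 := (continuousAt_clog (x := 1) Complex.one_mem_slitPlane).tendsto.comp h2
    have h4 := (Complex.continuous_im.tendsto _).comp h3
    rw [Complex.log_one, Complex.zero_im] at h4
    exact h4
  refine h.congr' ?_
  filter_upwards [eventually_gt_atTop 0] with t ht
  unfold ang
  have e : ((t : ℂ) + r * Complex.exp (ψ * Complex.I)) =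
      (t : ℂ) * (1 + ((t⁻¹ : ℝ) : ℂ) * (r * Complex.exp (ψ * Complex.I))) := by
    have : (t : ℂ) ≠ 0 := by exact_mod_cast ht.ne'
    push_cast
    field_simp
  rw [e, Complex.log_im, Complex.log_im, Complex.arg_real_mul _ ht]

lemma integrableOn_kap {r ψ : ℝ} (hr : 0 < r) (h0 : 0 < ψ) (h1 : ψ < π) :
    IntegrableOn (kap r ψ) (Ioi 0) := by
  refine integrableOn_Ioi_deriv_of_nonneg' (g := fun t => - ang r ψ t) (l := 0) ?_ ?_ ?_
  · intro x _
    simpa using (hasDerivAt_ang_t hr h0 h1 x).fun_neg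
  · intro x _; exact kap_nonneg hr h0 h1 x
  · simpa using (tendsto_ang hr h0 h1).neg

theorem integral_kap {r ψ : ℝ} (hr : 0 < r) (h0 : 0 < ψ) (h1 : ψ < π) :
    ∫ t in Ioi 0, kap r ψ t = ψ := by
  rw [integral_Ioi_of_hasDerivAt_of_nonneg' (g := fun t => - ang r ψ t) (l := 0) (a := 0)
    (g' := kap r ψ)]
  · rw [ang_zero hr h0 h1]; ring
  · intro x _
    simpa using (hasDerivAt_ang_t hr h0 h1 x).fun_neg
  · intro x _; exact kap_nonneg hr h0 h1 x
  · simpa using (tendsto_ang hr h0 h1).neg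

lemma integral_kap_interval {r ψ : ℝ} (hr : 0 < r) (h0 : 0 < ψ) (h1 : ψ < π) (x : ℝ) :
    ∫ t in (0:ℝ)..x, kap r ψ t = ψ - ang r ψ x := by
  rw [integral_eq_sub_of_hasDerivAt (f := fun t => - ang r ψ t)]
  · rw [ang_zero hr h0 h1]; ring
  · intro y _
    simpa using (hasDerivAt_ang_t hr h0 h1 y).fun_neg
  · exact (continuous_kap hr h0 h1).intervalIntegrable _ _

/-! ### integrability against the logarithm -/

lemma integrableOn_kap_log {r ψ : ℝ} (hr : 0 < r) (h0 : 0 < ψ) (h1 : ψ < π) :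
    IntegrableOn (fun t => kap r ψ t * log t) (Ioi 0) := by
  have hs : 0 < sin ψ := sin_pos_of_pos_of_lt_pi h0 h1
  rw [← Ioc_union_Ioi_eq_Ioi (zero_le_one (α := ℝ))]
  refine IntegrableOn.union ?_ ?_
  · have hl : IntegrableOn log (Ioc 0 1) := by
      have := (intervalIntegral.intervalIntegrable_log' (a := 0) (b := 1))
      rwa [intervalIntegrable_iff_integrableOn_Ioc_of_le zero_le_one] at this
    refine Integrable.bdd_mul (c := 1 / (r * sin ψ)) hl
      (continuous_kap hr h0 h1).aestronglyMeasurable ?_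
    filter_upwards with t
    rw [Real.norm_eq_abs, abs_of_nonneg (kap_nonneg hr h0 h1 t)]
    exact kap_le hr h0 h1 t
  · have hb : IntegrableOn (fun t : ℝ => r / sin ψ * (2 * t ^ (-(3/2) : ℝ))) (Ioi 1) :=
      ((integrableOn_Ioi_rpow_of_lt (by norm_num) one_pos).const_mul 2).const_mul _
    refine Integrable.mono' hb ?_ ?_
    · exact ((continuous_kap hr h0 h1).measurable.mul measurable_log).aestronglyMeasurable
    · filter_upwards [ae_restrict_mem measurableSet_Ioi] with t ht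
      have ht1 : (1:ℝ) < t := ht
      have ht0 : 0 < t := by linarith
      have hlog : 0 ≤ log t := log_nonneg ht1.le
      rw [Real.norm_eq_abs, abs_mul, abs_of_nonneg (kap_nonneg hr h0 h1 t), abs_of_nonneg hlog]
      have h2 : log t ≤ t ^ ((1/2 : ℝ)) / (1/2) := log_le_rpow_div ht0.le (by norm_num)
      calc kap r ψ t * log t ≤ (r / sin ψ * (1 / t ^ 2)) * (t ^ ((1/2 : ℝ)) / (1/2)) := by
            refine mul_le_mul (kap_le' hr h0 h1 ht0) h2 hlog (by positivity)
        _ = r / sin ψ * (2 * t ^ (-(3/2) : ℝ)) := by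
            have : t ^ (-(3/2) : ℝ) = t ^ ((1/2 : ℝ)) * (1 / t ^ 2) := by
              rw [show (-(3/2) : ℝ) = 1/2 - 2 by norm_num, rpow_sub ht0]
              rw [show (2:ℝ) = ((2:ℕ):ℝ) by norm_num, rpow_natCast]
              simp [div_eq_mul_inv]
            rw [this]; ring

/-- integrability of the right hand side -/
theorem integrableOn_kap_logmax {r ψ : ℝ} (hr : 0 < r) (h0 : 0 < ψ) (h1 : ψ < π) (ρ : ℝ) :
    IntegrableOn (fun t => kap r ψ t * log (max t ρ)) (Ioi 0) := by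
  have hb : IntegrableOn (fun t => |kap r ψ t * log t| + |log (max ρ 1)| * kap r ψ t) (Ioi 0) :=
    (integrableOn_kap_log hr h0 h1).abs.add ((integrableOn_kap hr h0 h1).const_mul _)
  refine Integrable.mono' hb ?_ ?_
  · exact ((continuous_kap hr h0 h1).measurable.mul
      (measurable_log.comp (measurable_id.max measurable_const))).aestronglyMeasurable
  · filter_upwards [ae_restrict_mem measurableSet_Ioi] with t ht
    have ht0 : (0:ℝ) < t := ht
    have hk := kap_nonneg hr h0 h1 t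
    rw [Real.norm_eq_abs, abs_mul, abs_mul, abs_of_nonneg hk]
    have h3 : |log (max t ρ)| ≤ |log t| + |log (max ρ 1)| := by
      rcases le_total ρ t with h | h
      · rw [max_eq_left h]; linarith [abs_nonneg (log (max ρ 1))]
      · rw [max_eq_right h]
        have hρ : 0 < ρ := by linarith
        rcases le_total ρ 1 with h4 | h4
        · have : |log ρ| ≤ |log t| := by
            rw [abs_of_nonpos (log_nonpos hρ.le h4), abs_of_nonpos (log_nonpos ht0.le (h.trans h4))]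
            linarith [log_le_log ht0 h]
          linarith [abs_nonneg (log (max ρ 1))]
        · rw [max_eq_left h4]; linarith [abs_nonneg (log t)]
    nlinarith [mul_le_mul_of_nonneg_left h3 hk]

/-- The constant. -/
lemma integral_kap_log {r ψ : ℝ} (hr : 0 < r) (h0 : 0 < ψ) (h1 : ψ < π) :
    ∫ t in Ioi 0, kap r ψ t * log t = ψ * log r := by
  set C := ∫ t in Ioi 0, kap r ψ t * log t with hC
  have e1 := integral_comp_rpow_Ioi (fun y => r ^ 2 * (kap r ψ (r ^ 2 * y) * log (r ^ 2 * y)))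
    (p := -1) (by norm_num)
  have e2 : (∫ y in Ioi (0:ℝ), r ^ 2 * (kap r ψ (r ^ 2 * y) * log (r ^ 2 * y))) = C := by
    rw [MeasureTheory.integral_const_mul]
    rw [integral_comp_mul_left_Ioi (fun y => kap r ψ y * log y) 0 (by positivity : 0 < r ^ 2)]
    rw [mul_zero, smul_eq_mul, ← mul_assoc, mul_inv_cancel₀ (by positivity), one_mul]
  have e3 : (∫ x in Ioi (0:ℝ), (|(-1:ℝ)| * x ^ ((-1:ℝ) - 1)) •
      (r ^ 2 * (kap r ψ (r ^ 2 * x ^ (-1:ℝ)) * log (r ^ 2 * x ^ (-1:ℝ))))) =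
      ∫ x in Ioi (0:ℝ), (2 * log r * kap r ψ x - kap r ψ x * log x) := by
    refine setIntegral_congr_fun measurableSet_Ioi ?_
    intro x hx
    have hx0 : (0:ℝ) < x := hx
    have ex : x ^ (-1:ℝ) = x⁻¹ := rpow_neg_one x
    have ex2 : x ^ ((-1:ℝ) - 1) = (x ^ 2)⁻¹ := by
      rw [show ((-1:ℝ) - 1) = -((2:ℕ):ℝ) by norm_num, rpow_neg hx0.le, rpow_natCast]
    simp only [smul_eq_mul]
    rw [ex, ex2, log_mul (by positivity) (by positivity), log_pow, log_inv]
    have hk : kap r ψ (r ^ 2 * x⁻¹) * (r ^ 2 * (x ^ 2)⁻¹) = kap r ψ x := by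
      have hd := den_pos hr h0 h1 x
      have hd2 := den_pos hr h0 h1 (r ^ 2 * x⁻¹)
      unfold kap
      rw [div_mul_eq_mul_div, div_eq_div_iff hd2.ne' hd.ne']
      field_simp
      ring
    push_cast
    rw [← hk]
    simp
    ring
  rw [e3, e2, MeasureTheory.integral_sub, MeasureTheory.integral_const_mul, integral_kap hr h0 h1, ← hC] at e1
  · linarith
  · exact (integrableOn_kap hr h0 h1).const_mul _
  · exact integrableOn_kap_log hr h0 h1

/-! ### the right hand side as a function of `ρ` -/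

/-- right hand side -/
noncomputable def Hf (r ψ ρ : ℝ) : ℝ := ∫ t in Ioi 0, kap r ψ t * log (max t ρ)

lemma Hf_eq {r ψ : ℝ} (hr : 0 < r) (h0 : 0 < ψ) (h1 : ψ < π) {ρ : ℝ} (hρ : 0 ≤ ρ) :
    Hf r ψ ρ = log ρ * (∫ t in (0:ℝ)..ρ, kap r ψ t) + ψ * log r
      - ∫ t in (0:ℝ)..ρ, kap r ψ t * log t := by
  unfold Hf
  have i1 : IntegrableOn (fun t => kap r ψ t * log (max t ρ)) (Ioc 0 ρ) :=
    (integrableOn_kap_logmax hr h0 h1 ρ).mono_set Ioc_subset_Ioi_self
  have i2 : IntegrableOn (fun t => kap r ψ t * log (max t ρ)) (Ioi ρ) :=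
    (integrableOn_kap_logmax hr h0 h1 ρ).mono_set (Ioi_subset_Ioi hρ)
  have j1 : IntegrableOn (fun t => kap r ψ t * log t) (Ioc 0 ρ) :=
    (integrableOn_kap_log hr h0 h1).mono_set Ioc_subset_Ioi_self
  have j2 : IntegrableOn (fun t => kap r ψ t * log t) (Ioi ρ) :=
    (integrableOn_kap_log hr h0 h1).mono_set (Ioi_subset_Ioi hρ)
  have hdis : Disjoint (Ioc (0:ℝ) ρ) (Ioi ρ) := by
    rw [Set.disjoint_left]; intro x hx hx2
    exact absurd hx.2 (not_le.2 hx2)
  rw [← integral_kap_log hr h0 h1]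
  rw [← Ioc_union_Ioi_eq_Ioi hρ, setIntegral_union hdis measurableSet_Ioi i1 i2,
    setIntegral_union hdis measurableSet_Ioi j1 j2]
  rw [intervalIntegral.integral_of_le hρ, intervalIntegral.integral_of_le hρ]
  have e1 : ∫ t in Ioc 0 ρ, kap r ψ t * log (max t ρ) = log ρ * ∫ t in Ioc 0 ρ, kap r ψ t := by
    rw [← MeasureTheory.integral_const_mul]
    refine setIntegral_congr_fun measurableSet_Ioc ?_
    intro t ht
    simp only
    rw [max_eq_right ht.2]; ring
  have e2 : ∫ t in Ioi ρ, kap r ψ t * log (max t ρ) = ∫ t in Ioi ρ, kap r ψ t * log t := by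
    refine setIntegral_congr_fun measurableSet_Ioi ?_
    intro t ht
    simp only
    rw [max_eq_left (le_of_lt ht)]
  rw [e1, e2]; ring

lemma intervalIntegrable_kap_log {r ψ : ℝ} (hr : 0 < r) (h0 : 0 < ψ) (h1 : ψ < π) (a b : ℝ) :
    IntervalIntegrable (fun t => kap r ψ t * log t) volume a b :=
  intervalIntegral.intervalIntegrable_log'.continuousOn_mul (continuous_kap hr h0 h1).continuousOn

lemma hasDerivAt_Hf {r ψ : ℝ} (hr : 0 < r) (h0 : 0 < ψ) (h1 : ψ < π) {ρ : ℝ} (hρ : 0 < ρ) :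
    HasDerivAt (Hf r ψ) ((ψ - ang r ψ ρ) / ρ) ρ := by
  have d1 : HasDerivAt (fun x => ∫ t in (0:ℝ)..x, kap r ψ t) (kap r ψ ρ) ρ :=
    intervalIntegral.integral_hasDerivAt_right
      ((continuous_kap hr h0 h1).intervalIntegrable _ _)
      ((continuous_kap hr h0 h1).stronglyMeasurableAtFilter _ _)
      (continuous_kap hr h0 h1).continuousAt
  have hm : Measurable (fun t => kap r ψ t * log t) :=
    (continuous_kap hr h0 h1).measurable.mul measurable_log
  have d2 : HasDerivAt (fun x => ∫ t in (0:ℝ)..x, kap r ψ t * log t) (kap r ψ ρ * log ρ) ρ :=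
    intervalIntegral.integral_hasDerivAt_right
      (intervalIntegrable_kap_log hr h0 h1 _ _)
      (hm.stronglyMeasurable.stronglyMeasurableAtFilter)
      ((continuous_kap hr h0 h1).continuousAt.mul (continuousAt_log hρ.ne'))
  have d3 : HasDerivAt (fun x => log x * (∫ t in (0:ℝ)..x, kap r ψ t) + ψ * log r
      - ∫ t in (0:ℝ)..x, kap r ψ t * log t)
      (ρ⁻¹ * (∫ t in (0:ℝ)..ρ, kap r ψ t) + log ρ * kap r ψ ρ - kap r ψ ρ * log ρ) ρ :=
    (((hasDerivAt_log hρ.ne').mul d1).add_const _).sub d2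
  have d4 := d3.congr_of_eventuallyEq (f₁ := Hf r ψ) (by
    filter_upwards [lt_mem_nhds hρ] with x hx using Hf_eq hr h0 h1 (le_of_lt hx))
  refine d4.congr_deriv ?_
  rw [integral_kap_interval hr h0 h1]
  field_simp
  ring

lemma continuousOn_Hf {r ψ : ℝ} (hr : 0 < r) (h0 : 0 < ψ) (h1 : ψ < π) :
    ContinuousOn (Hf r ψ) (Ici 0) := by
  intro ρ hρ
  rcases eq_or_lt_of_le (show (0:ℝ) ≤ ρ from hρ) with h | h
  · subst h
    have hc2 : ContinuousAt (fun x => ∫ t in (0:ℝ)..x, kap r ψ t * log t) 0 :=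
      (intervalIntegral.continuous_primitive
        (fun a b => intervalIntegrable_kap_log hr h0 h1 a b) 0).continuousAt
    have hW : ContinuousAt (fun x => log x * (∫ t in (0:ℝ)..x, kap r ψ t)) 0 := by
      unfold ContinuousAt
      simp only [log_zero, zero_mul]
      have hs : 0 < sin ψ := sin_pos_of_pos_of_lt_pi h0 h1
      have hb : Tendsto (fun x : ℝ => 1 / (r * sin ψ) * |x * log x|) (𝓝 0) (𝓝 0) := by
        have h5 : ContinuousAt (fun x : ℝ => 1 / (r * sin ψ) * |x * log x|) 0 :=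
          (continuous_const.mul continuous_mul_log.abs).continuousAt
        have h6 := h5.tendsto
        simpa using h6
      refine squeeze_zero_norm (fun x => ?_) hb
      rw [norm_mul, Real.norm_eq_abs, Real.norm_eq_abs]
      have h7 : ‖∫ t in (0:ℝ)..x, kap r ψ t‖ ≤ 1 / (r * sin ψ) * |x - 0| := by
        refine intervalIntegral.norm_integral_le_of_norm_le_const ?_
        intro t _
        rw [Real.norm_eq_abs, abs_of_nonneg (kap_nonneg hr h0 h1 t)]
        exact kap_le hr h0 h1 t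
      rw [sub_zero, Real.norm_eq_abs] at h7
      calc |log x| * |∫ t in (0:ℝ)..x, kap r ψ t| ≤ |log x| * (1 / (r * sin ψ) * |x|) :=
            mul_le_mul_of_nonneg_left h7 (abs_nonneg _)
        _ = 1 / (r * sin ψ) * |x * log x| := by rw [abs_mul]; ring
    have hc : ContinuousAt (fun x => log x * (∫ t in (0:ℝ)..x, kap r ψ t) + ψ * log r
      - ∫ t in (0:ℝ)..x, kap r ψ t * log t) 0 := (hW.add continuousAt_const).sub hc2
    refine (hc.continuousWithinAt).congr (fun x hx => Hf_eq hr h0 h1 hx) (Hf_eq hr h0 h1 le_rfl)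
  · exact (hasDerivAt_Hf hr h0 h1 h).continuousAt.continuousWithinAt

/-! ### the left hand side as a function of `ρ` -/

/-- left hand side -/
noncomputable def Jf (r ψ ρ : ℝ) : ℝ :=
  ∫ φ in (-ψ)..ψ, (1/2) * log (r ^ 2 + ρ ^ 2 + 2 * r * ρ * cos φ)

lemma log_norm_point (r φ t : ℝ) :
    log ‖(r : ℂ) * Complex.exp (φ * Complex.I) + t‖ =
      (1/2) * log (r ^ 2 + t ^ 2 + 2 * r * t * cos φ) := by
  rw [add_comm, ← normSq_point, Complex.normSq_eq_norm_sq, log_pow]
  push_cast; ring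

lemma mem_uIcc_abs {ψ φ : ℝ} (h0 : 0 < ψ) (h : φ ∈ uIcc (-ψ) ψ) : |φ| ≤ ψ := by
  rw [uIcc_of_le (by linarith)] at h
  exact abs_le.2 h

lemma mem_uIoc_abs {ψ φ : ℝ} (h0 : 0 < ψ) (h : φ ∈ Ι (-ψ) ψ) : |φ| ≤ ψ :=
  mem_uIcc_abs h0 (uIoc_subset_uIcc h)

lemma hasDerivAt_Jf {r ψ : ℝ} (hr : 0 < r) (h0 : 0 < ψ) (h1 : ψ < π) {ρ : ℝ} (hρ : 0 < ρ) :
    HasDerivAt (Jf r ψ) (2 * ((ψ - ang r ψ ρ) / ρ)) ρ := by
  have hs : 0 < sin ψ := sin_pos_of_pos_of_lt_pi h0 h1
  have hrs : 0 < r * sin ψ := by positivity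
  have key : HasDerivAt (fun x => ∫ φ in (-ψ)..ψ, (1/2) * log (r ^ 2 + x ^ 2 + 2 * r * x * cos φ))
      (∫ φ in (-ψ)..ψ, (ρ + r * cos φ) / (r ^ 2 + ρ ^ 2 + 2 * r * ρ * cos φ)) ρ := by
    refine (intervalIntegral.hasDerivAt_integral_of_dominated_loc_of_deriv_le
      (F := fun x φ => (1/2) * log (r ^ 2 + x ^ 2 + 2 * r * x * cos φ))
      (F' := fun x φ => (x + r * cos φ) / (r ^ 2 + x ^ 2 + 2 * r * x * cos φ))
      (s := Ioi 0) (bound := fun _ => 1 / (r * sin ψ)) (Ioi_mem_nhds hρ) ?_ ?_ ?_ ?_ ?_ ?_).2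
    · filter_upwards with x
      refine (Measurable.aestronglyMeasurable ?_)
      exact (measurable_log.comp (by fun_prop)).const_mul _
    · refine ContinuousOn.intervalIntegrable ?_
      intro φ hφ
      have := lt_of_lt_of_le (by positivity : 0 < (r * sin ψ) ^ 2)
        (den_ge hr h0 h1 hρ.le (mem_uIcc_abs h0 hφ))
      refine ContinuousAt.continuousWithinAt ?_
      refine continuousAt_const.mul (ContinuousAt.log ?_ this.ne')
      fun_prop
    · refine (Measurable.aestronglyMeasurable ?_)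
      exact Measurable.div (by fun_prop) (by fun_prop)
    · filter_upwards with φ hφ x hx
      have hx0 : (0:ℝ) < x := hx
      have hd := den_ge hr h0 h1 hx0.le (mem_uIoc_abs h0 hφ)
      have hd0 : 0 < r ^ 2 + x ^ 2 + 2 * r * x * cos φ :=
        lt_of_lt_of_le (by positivity : 0 < (r * sin ψ) ^ 2) hd
      rw [Real.norm_eq_abs, abs_div, abs_of_pos hd0, div_le_div_iff₀ hd0 hrs, one_mul]
      have e := den_eq r x φ
      have e2 : |x + r * cos φ| ^ 2 ≤ r ^ 2 + x ^ 2 + 2 * r * x * cos φ := by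
        rw [sq_abs]; nlinarith [sq_nonneg (r * sin φ)]
      nlinarith [sq_nonneg (|x + r * cos φ| - r * sin ψ)]
    · exact intervalIntegrable_const
    · filter_upwards with φ hφ x hx
      have hx0 : (0:ℝ) < x := hx
      have hd := den_ge hr h0 h1 hx0.le (mem_uIoc_abs h0 hφ)
      have hd0 : 0 < r ^ 2 + x ^ 2 + 2 * r * x * cos φ :=
        lt_of_lt_of_le (by positivity : 0 < (r * sin ψ) ^ 2) hd
      have hp : HasDerivAt (fun x : ℝ => r ^ 2 + x ^ 2 + 2 * r * x * cos φ)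
          (2 * x + 2 * r * cos φ) x := by
        have a1 : HasDerivAt (fun x : ℝ => x ^ 2) (2 * x) x := by
          simpa using hasDerivAt_pow 2 x
        have a2 : HasDerivAt (fun x : ℝ => 2 * r * x * cos φ) (2 * r * cos φ) x := by
          have := ((hasDerivAt_id x).const_mul (2 * r)).mul_const (cos φ)
          simpa using this
        exact (a1.const_add (r ^ 2)).fun_add a2
      have := (hp.log hd0.ne').const_mul (1/2)
      refine HasDerivAt.congr_deriv this ?_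
      field_simp
  have e : (∫ φ in (-ψ)..ψ, (ρ + r * cos φ) / (r ^ 2 + ρ ^ 2 + 2 * r * ρ * cos φ)) =
      2 * ((ψ - ang r ψ ρ) / ρ) := by
    have hQ : ∀ φ ∈ uIcc (-ψ) ψ, 0 < r ^ 2 + ρ ^ 2 + 2 * r * ρ * cos φ := fun φ hφ =>
      lt_of_lt_of_le (by positivity : 0 < (r * sin ψ) ^ 2)
        (den_ge hr h0 h1 hρ.le (mem_uIcc_abs h0 hφ))
    rw [integral_eq_sub_of_hasDerivAt (f := fun φ => (φ - ang r φ ρ) / ρ)]
    · simp only [ang_neg hr h0 h1]
      ring
    · intro φ hφ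
      have hab : |φ| < π := lt_of_le_of_lt (mem_uIcc_abs h0 hφ) h1
      have := ((hasDerivAt_id φ).fun_sub (hasDerivAt_ang_φ (t := ρ) hr hρ.le hab)).div_const ρ
      refine HasDerivAt.congr_deriv this ?_
      field_simp
      ring
    · refine ContinuousOn.intervalIntegrable ?_
      refine ContinuousOn.div (by fun_prop) (by fun_prop) (fun φ hφ => (hQ φ hφ).ne')
  rw [← e]
  exact key

lemma continuousOn_Jf {r ψ : ℝ} (hr : 0 < r) (h0 : 0 < ψ) (h1 : ψ < π) :
    ContinuousOn (Jf r ψ) (Ici 0) := by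
  have hs : 0 < sin ψ := sin_pos_of_pos_of_lt_pi h0 h1
  have hc : Continuous (fun ρ => ∫ φ in (-ψ)..ψ,
      (1/2) * log (r ^ 2 + ρ ^ 2 + 2 * r * |ρ| * max (cos φ) (cos ψ))) := by
    refine intervalIntegral.continuous_parametric_intervalIntegral_of_continuous' ?_ _ _
    unfold Function.uncurry
    refine continuous_const.mul (Continuous.log (by fun_prop) ?_)
    rintro ⟨ρ, φ⟩
    simp only
    have h2 : 0 ≤ 2 * r * |ρ| := by positivity
    have h3 := mul_le_mul_of_nonneg_left (le_max_right (cos φ) (cos ψ)) h2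
    have h4 := den_pos hr h0 h1 |ρ|
    rw [sq_abs] at h4
    linarith
  refine hc.continuousOn.congr ?_
  intro ρ hρ
  unfold Jf
  refine intervalIntegral.integral_congr ?_
  intro φ hφ
  have hc : cos ψ ≤ cos φ := by
    rw [← Real.cos_abs φ]
    exact Real.cos_le_cos_of_nonneg_of_le_pi (abs_nonneg _) h1.le (mem_uIcc_abs h0 hφ)
  simp only
  rw [abs_of_nonneg (show (0:ℝ) ≤ ρ from hρ), max_eq_left hc]

/-- **A1**: kernel lemma. -/
theorem kernel_lemma {r ψ : ℝ} (hr : 0 < r) (h0 : 0 < ψ) (h1 : ψ < π) {ρ : ℝ} (hρ : 0 ≤ ρ) :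
    ∫ φ in (-ψ)..ψ, log ‖(r : ℂ) * Complex.exp (φ * Complex.I) + ρ‖ =
      2 * ∫ t in Ioi 0, kap r ψ t * log (max t ρ) := by
  have e1 : ∫ φ in (-ψ)..ψ, log ‖(r : ℂ) * Complex.exp (φ * Complex.I) + ρ‖ = Jf r ψ ρ := by
    unfold Jf
    refine intervalIntegral.integral_congr ?_
    intro φ _
    exact log_norm_point r φ ρ
  rw [e1]
  change Jf r ψ ρ = 2 * Hf r ψ ρ
  have hz : Jf r ψ 0 = 2 * Hf r ψ 0 := by
    rw [Hf_eq hr h0 h1 le_rfl]
    unfold Jf
    simp only [intervalIntegral.integral_same]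
    have : ∀ φ : ℝ, (1/2) * log (r ^ 2 + (0:ℝ) ^ 2 + 2 * r * 0 * cos φ) = log r := by
      intro φ
      rw [show r ^ 2 + (0:ℝ) ^ 2 + 2 * r * 0 * cos φ = r ^ 2 by ring, log_pow]
      push_cast; ring
    simp only [this]
    rw [intervalIntegral.integral_const]
    simp
    ring
  rcases eq_or_lt_of_le hρ with h | h
  · subst h; exact hz
  · have hcont : ContinuousOn (fun x => Jf r ψ x - 2 * Hf r ψ x) (Icc 0 ρ) :=
      ((continuousOn_Jf hr h0 h1).sub (continuousOn_const.mul (continuousOn_Hf hr h0 h1))).mono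
        Icc_subset_Ici_self
    obtain ⟨c, hc, hc2⟩ := exists_hasDerivAt_eq_slope (fun x => Jf r ψ x - 2 * Hf r ψ x)
      (fun _ => 0) h hcont (by
        intro x hx
        have := (hasDerivAt_Jf hr h0 h1 hx.1).fun_sub ((hasDerivAt_Hf hr h0 h1 hx.1).const_mul 2)
        exact this.congr_deriv (sub_self _))
    have hne : ρ - 0 ≠ 0 := by simpa using h.ne'
    rw [eq_comm, div_eq_zero_iff] at hc2
    rcases hc2 with h5 | h5
    · linarith
    · exact absurd h5 hne

end Pool.Agent.H50.EH
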