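import Pool.Agent.H93.EH.Touch

/-!
# EHP: range of `(1/n) log |Q|` on circles from the majorisation, and zeros on both sides
-/

set_option autoImplicit false
set_option linter.unusedVariables false

open MeasureTheory Real Set Filter Topology
open scoped Interval

noncomputable section

namespace Pool.Agent.H50.EH

open Pool.Agent.H56.EH

/-- `(1/n) log |Q|` -/
def LQ {n : ℕ} (a : Fin n → ℂ) (z : ℂ) : ℝ := (1 / (n : ℝ)) * ∑ j, Real.log ‖z - a j‖

lemma LQ_intble {n : ℕ} (a : Fin n → ℂ) (r : ℝ) (c d : ℝ) :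
    IntervalIntegrable (fun φ => LQ a (circleMap 0 r φ)) volume c d := by
  have h : IntervalIntegrable (fun φ => LQ a (circleMap 0 r φ)) volume 0 (2 * π) := by
    unfold LQ
    have h2 : IntervalIntegrable (∑ j, fun φ => Real.log ‖circleMap 0 r φ - a j‖) volume 0 (2 * π) :=
      IntervalIntegrable.sum Finset.univ (fun j _ =>
        (circleIntegrable_log_norm_sub_const (a := a j) (c := 0) r :
          IntervalIntegrable _ volume 0 (2 * π)))
    have h3 := h2.const_mul (1 / (n : ℝ))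
    have e : (fun φ => 1 / (n : ℝ) * (∑ j, fun φ => Real.log ‖circleMap 0 r φ - a j‖) φ) =
        fun φ => 1 / (n : ℝ) * ∑ j, Real.log ‖circleMap 0 r φ - a j‖ := by
      funext φ; rw [Finset.sum_apply]
    rw [e] at h3
    exact h3
  have hp : Function.Periodic (fun φ => LQ a (circleMap 0 r φ)) (2 * π) := by
    intro φ
    simp only
    rw [periodic_circleMap 0 r φ]
  exact hp.intervalIntegrable (t := 0) (by positivity) (by simpa using h) c d

lemma posp_intble {f : ℝ → ℝ} {c d : ℝ} (hf : IntervalIntegrable f volume c d) :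
    IntervalIntegrable (fun φ => max (f φ) 0) volume c d :=
  ⟨hf.1.pos_part, hf.2.pos_part⟩

/-- a nonnegative interval integrable function with nonpositive integral over a period vanishes at every
point of continuity -/
lemma zero_of_integral_le {f : ℝ → ℝ} (hf : ∀ x, 0 ≤ f x) (hi : ∀ c d, IntervalIntegrable f volume c d)
    (hper : Function.Periodic f (2 * π)) (h : ∫ φ in (0:ℝ)..(2 * π), f φ ≤ 0) {x : ℝ}
    (hx : ContinuousAt f x) : f x ≤ 0 := by
  by_contra hpos
  push Not at hpos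
  have h1 : ∫ φ in (x - π)..(x + π), f φ ≤ 0 := by
    have := hper.intervalIntegral_add_eq 0 (x - π)
    rw [zero_add, show x - π + 2 * π = x + π by ring] at this
    linarith
  -- a neighbourhood where f > f x / 2
  have h2 : ∀ᶠ y in 𝓝 x, f x / 2 < f y := hx.eventually (lt_mem_nhds (by linarith))
  obtain ⟨δ, hδ, hball⟩ := Metric.eventually_nhds_iff_ball.mp h2
  set η := min (δ / 2) (π / 2) with hη
  have hπ := Real.pi_pos
  have hη0 : 0 < η := by positivity
  have hηδ : η < δ := lt_of_le_of_lt (min_le_left _ _) (by linarith)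
  have hηπ : η < π := lt_of_le_of_lt (min_le_right _ _) (by linarith)
  have h3 : ∫ φ in (x - η)..(x + η), f x / 2 ≤ ∫ φ in (x - η)..(x + η), f φ := by
    refine intervalIntegral.integral_mono_on (by linarith) (by simp) (hi _ _) ?_
    intro y hy
    refine (hball y ?_).le
    rw [Metric.mem_ball, Real.dist_eq, abs_lt]
    constructor <;> linarith [hy.1, hy.2]
  have h4 : ∫ φ in (x - η)..(x + η), f φ ≤ ∫ φ in (x - π)..(x + π), f φ := by
    refine intervalIntegral.integral_mono_interval (by linarith) (by linarith) (by linarith) ?_ (hi _ _)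
    exact Eventually.of_forall hf
  rw [intervalIntegral.integral_const, smul_eq_mul] at h3
  have h5 : 0 < (x + η - (x - η)) * (f x / 2) := by
    have : x + η - (x - η) = 2 * η := by ring
    rw [this]; positivity
  linarith

lemma continuousAt_LQ {n : ℕ} (a : Fin n → ℂ) {r φ : ℝ} (h : ∀ j, circleMap 0 r φ ≠ a j) :
    ContinuousAt (fun φ => LQ a (circleMap 0 r φ)) φ := by
  unfold LQ
  refine continuousAt_const.mul ?_
  refine tendsto_finset_sum _ (fun j _ => ?_)
  have hc : ContinuousAt (fun φ => ‖circleMap 0 r φ - a j‖) φ :=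
    (((continuous_circleMap 0 r).sub continuous_const).norm).continuousAt
  exact (hc.log (norm_ne_zero_iff.2 (sub_ne_zero.2 (h j)))).tendsto

lemma exists_angle (z : ℂ) : ∃ φ : ℝ, circleMap 0 ‖z‖ φ = z := by
  refine ⟨Complex.arg z, ?_⟩
  rw [circleMap, zero_add, Complex.norm_mul_exp_arg_mul_I]

/-- upper end of the range -/
theorem le_top_abs {n : ℕ} (a : Fin n → ℂ) (g : ℂ → ℝ) {r T : ℝ}
    (hmaj : ∫ φ in (0 : ℝ)..(2 * π), max (LQ a (circleMap 0 r φ) - T) 0 ≤
      ∫ φ in (0 : ℝ)..(2 * π), max (g (circleMap 0 r φ) - T) 0)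
    (hg : ∀ φ, g (circleMap 0 r φ) ≤ T) {z : ℂ} (hz : ‖z‖ = r) (hza : ∀ j, z ≠ a j) :
    LQ a z ≤ T := by
  obtain ⟨φ, hφ⟩ := exists_angle z
  rw [hz] at hφ
  have h0 : ∫ φ in (0 : ℝ)..(2 * π), max (g (circleMap 0 r φ) - T) 0 = 0 := by
    have : ∀ φ, max (g (circleMap 0 r φ) - T) 0 = 0 := fun φ => max_eq_right (by linarith [hg φ])
    simp only [this, intervalIntegral.integral_zero]
  rw [h0] at hmaj
  have key := zero_of_integral_le (f := fun φ => max (LQ a (circleMap 0 r φ) - T) 0) (x := φ)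
    (fun x => le_max_right _ _)
    (fun c d => posp_intble ((LQ_intble a r c d).sub (by simp)))
    (fun φ => by simp only; rw [periodic_circleMap 0 r φ]) hmaj
    (((continuousAt_LQ a (by rw [hφ]; exact hza)).sub continuousAt_const).max continuousAt_const)
  rw [hφ] at key
  have := (le_max_left (LQ a z - T) 0).trans key
  linarith

/-- lower end of the range, equal means -/
theorem ge_bot_abs {n : ℕ} (a : Fin n → ℂ) (g : ℂ → ℝ) {r T : ℝ}
    (hgi : IntervalIntegrable (fun φ => g (circleMap 0 r φ)) volume 0 (2 * π))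
    (hmaj : ∫ φ in (0 : ℝ)..(2 * π), max (LQ a (circleMap 0 r φ) - T) 0 ≤
      ∫ φ in (0 : ℝ)..(2 * π), max (g (circleMap 0 r φ) - T) 0)
    (hmean : ∫ φ in (0 : ℝ)..(2 * π), g (circleMap 0 r φ) ≤
      ∫ φ in (0 : ℝ)..(2 * π), LQ a (circleMap 0 r φ))
    (hg : ∀ φ, T ≤ g (circleMap 0 r φ)) {z : ℂ} (hz : ‖z‖ = r) (hza : ∀ j, z ≠ a j) :
    T ≤ LQ a z := by
  obtain ⟨φ, hφ⟩ := exists_angle z
  rw [hz] at hφ
  have hL := LQ_intble a r 0 (2 * π)
  have h0 : ∫ φ in (0 : ℝ)..(2 * π), max (g (circleMap 0 r φ) - T) 0 =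
      ∫ φ in (0 : ℝ)..(2 * π), (g (circleMap 0 r φ) - T) := by
    refine intervalIntegral.integral_congr (fun φ _ => ?_)
    exact max_eq_left (by linarith [hg φ])
  have h1 : ∫ φ in (0 : ℝ)..(2 * π), max (T - LQ a (circleMap 0 r φ)) 0 =
      (∫ φ in (0 : ℝ)..(2 * π), max (LQ a (circleMap 0 r φ) - T) 0) -
      ∫ φ in (0 : ℝ)..(2 * π), (LQ a (circleMap 0 r φ) - T) := by
    rw [← intervalIntegral.integral_sub (posp_intble (hL.sub (by simp))) (hL.sub (by simp))]
    refine intervalIntegral.integral_congr (fun φ _ => ?_)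
    beta_reduce
    rcases le_total (LQ a (circleMap 0 r φ)) T with h | h
    · rw [max_eq_left (by linarith), max_eq_right (by linarith)]; ring
    · rw [max_eq_right (by linarith), max_eq_left (by linarith)]; ring
  rw [intervalIntegral.integral_sub hL (by simp)] at h1
  rw [h0, intervalIntegral.integral_sub hgi (by simp)] at hmaj
  have h2 : ∫ φ in (0 : ℝ)..(2 * π), max (T - LQ a (circleMap 0 r φ)) 0 ≤ 0 := by
    rw [h1]; linarith
  have key := zero_of_integral_le (f := fun φ => max (T - LQ a (circleMap 0 r φ)) 0) (x := φ)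
    (fun x => le_max_right _ _)
    (fun c d => posp_intble (IntervalIntegrable.sub (by simp) (LQ_intble a r c d)))
    (fun φ => by simp only; rw [periodic_circleMap 0 r φ]) h2
    ((continuousAt_const.sub (continuousAt_LQ a (by rw [hφ]; exact hza))).max continuousAt_const)
  rw [hφ] at key
  have := (le_max_left (T - LQ a z) 0).trans key
  linarith

/-- Green function of `[0,4]` -/
def gV (z : ℂ) : ℝ := Real.arcosh ((‖z‖ + ‖z - 4‖) / 4)

lemma gV_arg_ge (z : ℂ) : 1 ≤ (‖z‖ + ‖z - 4‖) / 4 := by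
  have h : ‖(4:ℂ)‖ ≤ ‖z‖ + ‖z - 4‖ := by
    have := norm_sub_le z (z - 4)
    simpa using this
  have h4 : ‖(4:ℂ)‖ = 4 := by simp
  rw [h4] at h
  linarith

lemma gV_le (z : ℂ) : gV z ≤ Real.arcosh (‖z‖ / 2 + 1) := by
  have h := gV_arg_ge z
  have h4 : ‖(4:ℂ)‖ = 4 := by simp
  have h2 := norm_sub_le z 4
  rw [h4] at h2
  unfold gV
  rw [Real.arcosh_le_arcosh (by linarith) (by positivity)]
  linarith

lemma gV_ge {z : ℂ} (hz : 4 ≤ ‖z‖) : Real.arcosh (‖z‖ / 2 - 1) ≤ gV z := by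
  have h := gV_arg_ge z
  have h4 : ‖(4:ℂ)‖ = 4 := by simp
  have h2 : ‖z‖ - ‖(4:ℂ)‖ ≤ ‖z - 4‖ := norm_sub_norm_le z 4
  rw [h4] at h2
  unfold gV
  rw [Real.arcosh_le_arcosh (by linarith) (by linarith)]
  linarith

lemma continuous_gV : Continuous gV := by
  unfold gV
  exact Real.continuousOn_arcosh.comp_continuous (by fun_prop) (fun z => gV_arg_ge z)

lemma gV_intble (r c d : ℝ) :
    IntervalIntegrable (fun φ => gV (circleMap 0 r φ)) volume c d :=
  (continuous_gV.comp (continuous_circleMap 0 r)).intervalIntegrable _ _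

lemma norm_cm {r : ℝ} (hr : 0 ≤ r) (φ : ℝ) : ‖circleMap 0 r φ‖ = r := by
  rw [norm_circleMap_zero, abs_of_nonneg hr]

/-- **upper end of the range** -/
theorem le_top {n : ℕ} (a : Fin n → ℂ) {r : ℝ} (hr : 0 < r)
    (hmaj : ∀ T : ℝ, ∫ φ in (0 : ℝ)..(2 * π), max (LQ a (circleMap 0 r φ) - T) 0 ≤
      ∫ φ in (0 : ℝ)..(2 * π), max (gV (circleMap 0 r φ) - T) 0)
    {z : ℂ} (hz : ‖z‖ = r) (hza : ∀ j, z ≠ a j) :
    LQ a z ≤ Real.arcosh (‖z‖ / 2 + 1) := by
  rw [hz]
  refine le_top_abs a gV (hmaj _) (fun φ => ?_) hz hza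
  have := gV_le (circleMap 0 r φ)
  rwa [norm_cm hr.le] at this

/-- **lower end of the range** -/
theorem ge_bot {n : ℕ} (a : Fin n → ℂ) {r : ℝ} (hr : 4 ≤ r)
    (hmaj : ∀ T : ℝ, ∫ φ in (0 : ℝ)..(2 * π), max (LQ a (circleMap 0 r φ) - T) 0 ≤
      ∫ φ in (0 : ℝ)..(2 * π), max (gV (circleMap 0 r φ) - T) 0)
    (hmean : ∫ φ in (0 : ℝ)..(2 * π), gV (circleMap 0 r φ) ≤
      ∫ φ in (0 : ℝ)..(2 * π), LQ a (circleMap 0 r φ))
    {z : ℂ} (hz : ‖z‖ = r) (hza : ∀ j, z ≠ a j) :
    Real.arcosh (‖z‖ / 2 - 1) ≤ LQ a z := by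
  rw [hz]
  refine ge_bot_abs a gV (gV_intble _ _ _) (hmaj _) hmean (fun φ => ?_) hz hza
  have h1 := norm_cm (r := r) (by linarith) φ
  have := gV_ge (z := circleMap 0 r φ) (by rw [h1]; exact hr)
  rwa [h1] at this

/-- **zeros on both sides of the touching circle** -/
theorem zeros_both {n : ℕ} (a : Fin n → ℂ) (hn : 0 < n) (hle : ∀ r, 0 < r → Nz a r ≤ Nv r)
    {r₀ : ℝ} (h0 : 0 < r₀) (heq : Nz a r₀ = Nv r₀) (h4 : r₀ < 4) :
    (∃ j, ‖a j‖ < r₀) ∧ (∃ j, r₀ < ‖a j‖) := by
  have hn' : (0 : ℝ) < n := by exact_mod_cast hn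
  have hc := Pool.Agent.H93.EH.touch_card a hle h0 heq
  have hπ := Real.pi_pos
  unfold Pool.Agent.H93.EH.dNv at hc
  rw [Real.exp_log h0] at hc
  constructor
  · by_contra hcon
    push Not at hcon
    have h1 : ∀ j, (if ‖a j‖ < r₀ then (1:ℝ) else 0) = 0 := fun j => if_neg (not_lt.2 (hcon j))
    simp only [h1, Finset.sum_const_zero, mul_zero] at hc
    have h2 : Real.arccos (r₀ / 2 - 1) = π := by
      have : Real.arccos (r₀ / 2 - 1) / π = 1 := by linarith
      rwa [div_eq_one_iff_eq hπ.ne'] at this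
    rw [Real.arccos_eq_pi] at h2
    linarith
  · by_contra hcon
    push Not at hcon
    have hlt : ∀ j, ‖a j‖ < r₀ := fun j =>
      lt_of_le_of_ne (hcon j) (Pool.Agent.H93.EH.touch_ne a hle h0 heq hn j)
    have h1 : ∀ j, (if ‖a j‖ < r₀ then (1:ℝ) else 0) = 1 := fun j => if_pos (hlt j)
    simp only [h1] at hc
    rw [Finset.sum_const, Finset.card_univ, Fintype.card_fin, nsmul_eq_mul, mul_one, one_div,
      inv_mul_cancel₀ hn'.ne'] at hc
    have h2 : Real.arccos (r₀ / 2 - 1) = 0 := by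
      have : Real.arccos (r₀ / 2 - 1) / π = 0 := by linarith
      rcases div_eq_zero_iff.1 this with h | h
      · exact h
      · exact absurd h hπ.ne'
    rw [Real.arccos_eq_zero] at h2
    linarith

end Pool.Agent.H50.EH
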